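import Pool.Agent.Helper205_Exc.Hyp
import Pool.Agent.TH905.HS.Fin1

/-!
# Hyperelliptic curves with rational Weierstrass points, one of which moves: large Szpiro ratios

Let `a_1, …, a_(2g-1)` be different nonzero rational numbers. The curves
`C : y² = d x (x - t) ∏ (x - a_i)` of genus `g ≥ 2` over `ℚ`, with `t, d ∈ ℚ`, have `2 g + 2` rational
Weierstrass points, all of which but `t` are fixed: `0`, the `a_i` and `∞` (the general case of fixed
points reduces to this one by an automorphism of the line). `M_C` is the product of the primes of bad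
reduction, `Δ_C` the minimal discriminant (`badNorm` and `discNorm` of
`Pool/Agent/W318/SzpDefs.lean`). The problem asks for a `κ` with `Δ_C ≤ c M_C ^ κ`.

For every `η > 0` there is a `κ₀` such that for all `κ ≥ κ₀` and `c > 0`
* at most `C X ^ (1 / (2g + 1) + η)` numbers `t` of height at most `X ^ A` have a twist with `M_C ≤ X`
  and `Δ_C > c M_C ^ κ`,
* at most `C B ^ ((2g + η) / (κ - 4g - 2))` numbers `t` of height at most `B` have a twist with
  `Δ_C > c M_C ^ κ`.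

All `2 g + 1` integers `u`, `v`, `u b_i - v a_i`, where `t = u / v` and `b_i` is the denominator of `a_i`
(now `a_i` its numerator), have small radicals compared to the height of `t`. If one of them is
divisible by a large power `r ^ E` of a small integer `r`, two others are proportional modulo `r ^ E`,
and a count of pairs of integers with small radicals which are proportional modulo `r ^ E` gives the
bound. Otherwise they are products of powers of boundedly many small integers, and the determinant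
method applies.
-/

set_option autoImplicit false

namespace Pool.Agent.Results.MP_ca2859_nt.MovingWeierstrassPoint

open Polynomial
open Pool.Agent.W318 (discNorm badNorm)

/-- the right hand side of the equation `y² = d x (x - t) ∏ (x - a_i)` -/
noncomputable def curve {n : ℕ} (a : Fin n → ℚ) (d t : ℚ) : ℚ[X] :=
  C d * (X * (X - C t) * ∏ i, (X - C (a i)))

/-- the height of a rational number -/
def height (t : ℚ) : ℕ := max t.num.natAbs t.den

/-- the `t ≠ 0, a_i` of height at most `X ^ A` such that `M_C ≤ X` and `Δ_C > c M_C ^ κ` for some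
quadratic twist -/
def Large {n : ℕ} (g : ℕ) (a : Fin n → ℚ) (κ c A X : ℝ) : Set ℚ :=
  {t | t ≠ 0 ∧ (∀ i, t ≠ a i) ∧ (height t : ℝ) ≤ X ^ A ∧ ∃ d : ℚ, d ≠ 0 ∧
    (badNorm g (curve a d t) : ℝ) ≤ X ∧
    c * (badNorm g (curve a d t) : ℝ) ^ κ < discNorm g (curve a d t)}

/-- the `t ≠ 0, a_i` of height at most `B` such that `Δ_C > c M_C ^ κ` for some quadratic twist -/
def Exceptional {n : ℕ} (g : ℕ) (a : Fin n → ℚ) (κ c B : ℝ) : Set ℚ :=
  {t | t ≠ 0 ∧ (∀ i, t ≠ a i) ∧ (height t : ℝ) ≤ B ∧ ∃ d : ℚ, d ≠ 0 ∧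
    c * (badNorm g (curve a d t) : ℝ) ^ κ < discNorm g (curve a d t)}

section aux

open Pool.Agent.Helper205_Exc Pool.Agent.TH905.HS
open Pool.Agent.Results.MP_4d5ce1_nt.ExceptionsSmallRadical (Nrm h N1 Pts Exc)

variable {n g : ℕ}

theorem curve_eq (a : Fin n → ℚ) (d t : ℚ) :
    curve a d t = pol d (root (Fin.cons t a : Fin (n + 1) → ℚ)) := by
  unfold curve pol
  rw [Fin.prod_univ_succ, Fin.prod_univ_succ]
  simp only [root0, root1, root2]
  rw [C_0, sub_zero]
  ring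

theorem h_eq (t : ℚ) : h (t.num, (t.den : ℤ)) = Real.log (height t) := by
  unfold h height
  congr 1
  rw [Nat.cast_max, Nat.cast_natAbs, Int.cast_abs]
  congr 1
  simp

theorem height_pos (t : ℚ) : (0 : ℝ) < height t := by
  have h1 : 0 < height t := lt_of_lt_of_le t.den_pos (le_max_right _ _)
  exact_mod_cast h1

theorem nrm (t : ℚ) : Nrm (t.num, (t.den : ℤ)) := by
  refine ⟨?_, Or.inl ?_⟩
  · rw [Int.isCoprime_iff_gcd_eq_one]
    exact t.reduced
  · exact Int.natCast_pos.2 t.den_pos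

theorem inj : Function.Injective fun t : ℚ => (t.num, (t.den : ℤ)) := by
  intro s t hst
  simp only [Prod.mk.injEq] at hst
  exact Rat.ext hst.1 (by exact_mod_cast hst.2)

theorem off {a : Fin n → ℚ} {t : ℚ} (ht0 : t ≠ 0) (hta : ∀ i, t ≠ a i) (i : Fin (n + 2)) :
    t.num * (cus a i).2 - (t.den : ℤ) * (cus a i).1 ≠ 0 := by
  refine Fin.cases ?_ (fun i => ?_) i
  · change t.num * 0 - (t.den : ℤ) * 1 ≠ 0
    have h1 : (t.den : ℤ) ≠ 0 := by exact_mod_cast t.den_nz
    rw [mul_zero, mul_one, zero_sub]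
    exact neg_ne_zero.2 h1
  · refine Fin.cases ?_ (fun i => ?_) i
    · change t.num * 1 - (t.den : ℤ) * 0 ≠ 0
      rw [mul_one, mul_zero, sub_zero]
      exact Rat.num_ne_zero.2 ht0
    · change t.num * ((a i).den : ℤ) - (t.den : ℤ) * (a i).num ≠ 0
      intro h2
      apply hta i
      rw [Rat.eq_iff_mul_eq_mul]
      linarith

/-- the bad primes of an exceptional curve -/
theorem viol (hg : 2 ≤ g) (hn : n + 1 = 2 * g) {a : Fin n → ℚ} (ha : Function.Injective a)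
    (ha0 : ∀ i, a i ≠ 0) {κ c : ℝ} (hκ : 4 * g + 2 < κ) (hc : 0 < c) : ∃ c' : ℝ,
    ∀ t d : ℚ, t ≠ 0 → (∀ i, t ≠ a i) → d ≠ 0 →
      c * (badNorm g (curve a d t) : ℝ) ^ κ < discNorm g (curve a d t) →
      N1 (cus a) (SS a) (t.num, (t.den : ℤ)) ≤
        2 * g * (2 * g + 1) / (κ - 4 * g - 2) * h (t.num, (t.den : ℤ)) + c' := by
  obtain ⟨c₁, hc₁⟩ := log_disc_le ℚ hn hg
  obtain ⟨c₂, hc₂⟩ := ht_conf a
  obtain ⟨s, hs⟩ : ∃ s : ℝ, s = κ - 4 * g - 2 := ⟨_, rfl⟩
  have hs0 : 0 < s := by rw [hs]; linarith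
  refine ⟨(c₁ - Real.log c + 2 * g * (2 * g + 1) * c₂) / s, ?_⟩
  intro t d ht0 hta hd hviol
  have hx := root_inj ha ha0 ht0 hta
  rw [curve_eq] at hviol
  have hpos := badNorm_pos hn hd hx
  have h1 := viol_log hc hpos hviol
  have h2 := hc₁ (Fin.cons t a) hx d hd
  have h3 := hc₂ t
  have h4 := N1_le_bad ha ha0 ht0 hta hn hg hd
  rw [← hs, h_eq]
  have hn' : (n : ℝ) + 1 = 2 * g := by exact_mod_cast hn
  have hnn : (n : ℝ) = 2 * g - 1 := by linarith
  obtain ⟨L, hL⟩ : ∃ L : ℝ, L = Real.log (badNorm g (pol d (root (Fin.cons t a : Fin (n + 1) → ℚ)))) :=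
    ⟨_, rfl⟩
  rw [← hL] at h1 h2 h4
  rw [hnn] at h2
  have hgg : (0 : ℝ) ≤ 2 * g * (2 * g + 1) := by positivity
  have h5 : ((2 * (g : ℝ) - 1 + 2) * (2 * g - 1 + 1)) * Height.logHeight (Fin.cons t a : Fin (n + 1) → ℚ) ≤
      2 * g * (2 * g + 1) * (c₂ + Real.log (height t)) := by
    have e : (2 * (g : ℝ) - 1 + 2) * (2 * g - 1 + 1) = 2 * g * (2 * g + 1) := by ring
    rw [e]
    exact mul_le_mul_of_nonneg_left h3 hgg
  have h6 : s * L ≤ 2 * g * (2 * g + 1) * Real.log (height t) +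
      (c₁ - Real.log c + 2 * g * (2 * g + 1) * c₂) := by
    have e1 : κ * L = s * L + 2 * (2 * (g : ℝ) - 1 + 2) * L := by
      rw [hs]
      ring
    linarith
  refine h4.trans ?_
  rw [div_mul_eq_mul_div, ← add_div, le_div_iff₀ hs0, mul_comm]
  exact h6

end aux

open Pool.Agent.Helper205_Exc Pool.Agent.TH905.HS in
open Pool.Agent.Results.MP_4d5ce1_nt.ExceptionsSmallRadical (Nrm h N1 Pts Exc part1 part2) in
/-- **Theorem.** Let `g ≥ 2` and let `a_1, …, a_(2g-1)` be different nonzero rational numbers. For every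
`η > 0` there is `κ₀ > 4g + 2` such that for all `κ ≥ κ₀` and `c > 0`: for every `A` at most
`C X ^ (1 / (2g + 1) + η)` numbers `t` of height at most `X ^ A` have a quadratic twist
`C : y² = d x (x - t) ∏ (x - a_i)` with `M_C ≤ X` and `Δ_C > c M_C ^ κ`, and at most
`C B ^ ((2g + η) / (κ - 4g - 2))` numbers `t` of height at most `B` have a twist with
`Δ_C > c M_C ^ κ`. -/
theorem result (g n : ℕ) (hg : 2 ≤ g) (hn : n + 1 = 2 * g) (a : Fin n → ℚ)
    (ha : Function.Injective a) (ha0 : ∀ i, a i ≠ 0) (η : ℝ) (hη : 0 < η) :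
    ∃ κ₀ : ℝ, 4 * g + 2 < κ₀ ∧ ∀ κ c : ℝ, κ₀ ≤ κ → 0 < c →
      (∀ A : ℝ, ∃ C : ℝ, 0 < C ∧ ∀ X : ℝ, 1 ≤ X → (Large g a κ c A X).Finite ∧
        ((Large g a κ c A X).ncard : ℝ) ≤ C * X ^ (1 / (2 * (g : ℝ) + 1) + η)) ∧
      ∃ C : ℝ, 0 < C ∧ ∀ B : ℝ, 1 ≤ B → (Exceptional g a κ c B).Finite ∧
        ((Exceptional g a κ c B).ncard : ℝ) ≤ C * B ^ ((2 * g + η) / (κ - 4 * g - 2)) := by
  classical
  obtain ⟨E, hE⟩ : ∃ E : ℝ, E = 2 * g * (2 * g + 1) := ⟨_, rfl⟩
  have hg1 : (2 : ℝ) ≤ g := by exact_mod_cast hg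
  have hE1 : 1 ≤ E := by rw [hE]; nlinarith
  have hE0 : 0 < E := by linarith
  have hq : 3 ≤ n + 2 := by omega
  have hn' : (n : ℝ) + 1 = 2 * g := by exact_mod_cast hn
  have hqr : (((n + 2 : ℕ)) : ℝ) = 2 * g + 1 := by push_cast; linarith
  have hcus : ∀ i j, i ≠ j → (cus a i).1 * (cus a j).2 ≠ (cus a j).1 * (cus a i).2 := by
    intro i j hij h1
    exact res_ne ha ha0 i j hij (by unfold res; rw [h1, sub_self])
  obtain ⟨M, hM⟩ := part1 (n + 2) hq (cus a) hcus (SS a) (η / E) (by positivity)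
  obtain ⟨μ₀, hμ₀, hμ⟩ := part2 (n + 2) hq (cus a) hcus (SS a) (η / E) (by positivity)
  rw [hqr] at hM hμ
  refine ⟨4 * g + 2 + E * (1 / μ₀ + (M + 1)), by
    have : 0 < E * (1 / μ₀ + (M + 1)) := by positivity
    linarith, ?_⟩
  intro κ c hκ hc
  obtain ⟨s, hs⟩ : ∃ s : ℝ, s = κ - 4 * g - 2 := ⟨_, rfl⟩
  have hsE : E * (1 / μ₀ + (M + 1)) ≤ s := by rw [hs]; linarith
  have hs0 : 0 < s := lt_of_lt_of_le (by positivity) hsE
  have hκ' : 4 * (g : ℝ) + 2 < κ := by rw [hs] at hs0; linarith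
  obtain ⟨c', hc'⟩ := viol hg hn ha ha0 hκ' hc
  obtain ⟨μ, hμd⟩ : ∃ μ : ℝ, μ = E / s := ⟨_, rfl⟩
  have hμ0 : 0 < μ := by rw [hμd]; positivity
  have hμ1 : μ ≤ μ₀ := by
    rw [hμd, div_le_iff₀ hs0]
    have h1 : μ₀ * (E * (1 / μ₀ + (M + 1))) ≤ μ₀ * s := mul_le_mul_of_nonneg_left hsE hμ₀.le
    have h2 : μ₀ * (E * (1 / μ₀ + (M + 1))) = E + μ₀ * E * (M + 1) := by
      field_simp
    have h3 : 0 ≤ μ₀ * E * (M + 1) := by positivity
    linarith
  have hμM : M * μ ≤ 1 := by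
    rw [hμd, mul_div_assoc', div_le_one hs0]
    have h3 : 0 ≤ E * (1 / μ₀ + 1) := by positivity
    nlinarith
  rw [← hE] at hc'
  rw [← hs] at hc' ⊢
  rw [← hμd] at hc'
  obtain ⟨C2, hC2, hExc⟩ := hμ μ hμ0 hμ1 c'
  have hex : (1 / (2 * (g : ℝ) + 1) + η / E) * μ = (2 * g + η) / s := by
    rw [hμd, hE]
    field_simp
  refine ⟨fun A => ?_, C2, hC2, fun B hB => ?_⟩
  · obtain ⟨A', hA'⟩ : ∃ A' : ℕ, A' = ⌈A⌉₊ := ⟨_, rfl⟩
    obtain ⟨C1, hC1, hPts⟩ := hM A'
    refine ⟨C1 + C2, by positivity, fun X hX => ?_⟩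
    have hX0 : 0 < X := by linarith
    have hlX : 0 ≤ Real.log X := Real.log_nonneg hX
    obtain ⟨hf1, hc1⟩ := hPts X hX
    obtain ⟨hf2, hc2⟩ := hExc (X ^ M) (one_le_pow₀ hX)
    have hmaps : ∀ t ∈ Large g a κ c A X, (t.num, (t.den : ℤ)) ∈
        Pts (cus a) (SS a) M A' X ∪ Exc (cus a) (SS a) μ c' (X ^ M) := by
      rintro t ⟨ht0, hta, hH, d, hd, hbad, hviol⟩
      have h1 := hc' t d ht0 hta hd hviol
      have h2 := N1_le_bad ha ha0 ht0 hta hn hg hd
      rw [curve_eq] at hbad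
      have hx := root_inj ha ha0 ht0 hta
      have hpos : (0 : ℝ) < badNorm g (pol d (root (Fin.cons t a : Fin (n + 1) → ℚ))) := by
        exact_mod_cast badNorm_pos hn hd hx
      have h3 := Real.log_le_log hpos hbad
      have h4 : h (t.num, (t.den : ℤ)) ≤ A' * Real.log X := by
        rw [h_eq]
        have h5 := Real.log_le_log (height_pos t) hH
        rw [Real.log_rpow hX0] at h5
        have h6 : A ≤ A' := by rw [hA']; exact Nat.le_ceil A
        exact h5.trans (mul_le_mul_of_nonneg_right h6 hlX)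
      rcases le_or_gt (M * Real.log X) (h (t.num, (t.den : ℤ))) with h7 | h7
      · exact Or.inl ⟨nrm t, off ht0 hta, h2.trans h3, h7, h4⟩
      · refine Or.inr ⟨nrm t, off ht0 hta, ?_, h1⟩
        rw [Real.log_pow]
        exact h7.le
    have hinj : Set.InjOn (fun t : ℚ => (t.num, (t.den : ℤ))) (Large g a κ c A X) := inj.injOn
    refine ⟨Set.Finite.of_injOn hmaps hinj (hf1.union hf2), ?_⟩
    have h8 := Set.ncard_le_ncard_of_injOn _ hmaps hinj (hf1.union hf2)
    have h9 := h8.trans (Set.ncard_union_le _ _)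
    have h10 : ((Large g a κ c A X).ncard : ℝ) ≤ (Pts (cus a) (SS a) M A' X).ncard +
        (Exc (cus a) (SS a) μ c' (X ^ M)).ncard := by exact_mod_cast h9
    obtain ⟨V, hV⟩ : ∃ V : ℝ, V = X ^ (1 / (2 * (g : ℝ) + 1) + η) := ⟨_, rfl⟩
    have hηE : η / E ≤ η := div_le_self hη.le hE1
    have h11 : X ^ (1 / (2 * (g : ℝ) + 1) + η / E) ≤ V := by
      rw [hV]
      exact Real.rpow_le_rpow_of_exponent_le hX (by linarith)
    have h12 : (X ^ M) ^ ((1 / (2 * (g : ℝ) + 1) + η / E) * μ) ≤ V := by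
      refine le_trans ?_ h11
      rw [← Real.rpow_natCast, ← Real.rpow_mul hX0.le]
      apply Real.rpow_le_rpow_of_exponent_le hX
      have h13 : 0 ≤ 1 / (2 * (g : ℝ) + 1) + η / E := by positivity
      calc (M : ℝ) * ((1 / (2 * (g : ℝ) + 1) + η / E) * μ)
          = (1 / (2 * (g : ℝ) + 1) + η / E) * (M * μ) := by ring
        _ ≤ (1 / (2 * (g : ℝ) + 1) + η / E) * 1 := mul_le_mul_of_nonneg_left hμM h13
        _ = _ := mul_one _
    rw [← hV]
    calc ((Large g a κ c A X).ncard : ℝ) ≤ C1 * X ^ (1 / (2 * (g : ℝ) + 1) + η / E) +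
          C2 * (X ^ M) ^ ((1 / (2 * (g : ℝ) + 1) + η / E) * μ) := h10.trans (add_le_add hc1 hc2)
      _ ≤ C1 * V + C2 * V := add_le_add (mul_le_mul_of_nonneg_left h11 hC1.le)
          (mul_le_mul_of_nonneg_left h12 hC2.le)
      _ = (C1 + C2) * V := by ring
  · obtain ⟨hf2, hc2⟩ := hExc B hB
    rw [hex] at hc2
    have hmaps : ∀ t ∈ Exceptional g a κ c B, (t.num, (t.den : ℤ)) ∈
        Exc (cus a) (SS a) μ c' B := by
      rintro t ⟨ht0, hta, hH, d, hd, hviol⟩
      refine ⟨nrm t, off ht0 hta, ?_, hc' t d ht0 hta hd hviol⟩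
      rw [h_eq]
      exact Real.log_le_log (height_pos t) hH
    have hinj : Set.InjOn (fun t : ℚ => (t.num, (t.den : ℤ))) (Exceptional g a κ c B) := inj.injOn
    refine ⟨Set.Finite.of_injOn hmaps hinj hf2, ?_⟩
    have h8 := Set.ncard_le_ncard_of_injOn _ hmaps hinj hf2
    refine le_trans ?_ hc2
    exact_mod_cast h8

end Pool.Agent.Results.MP_ca2859_nt.MovingWeierstrassPoint
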